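import Pool.Agent.H97.NV.Final

/-!
# Nivat's conjecture

Problem MP_de3c7d_co. A configuration on the integer lattice of the plane, over any alphabet, finite
or not, that has at most `n m` blocks of size `n × m` in some lattice coordinates is periodic.
-/

set_option autoImplicit false

namespace Pool.Agent.Results.MP_de3c7d_co.NivatTheorem

universe r

/-- The `n × m` block of the configuration `x` at position `p`, in the coordinates given by the
vectors `e` and `f`: the array `(i, j) ↦ x (p + i e + j f)`, `0 ≤ i < n`, `0 ≤ j < m`. -/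
def block {A : Type r} (x : ℤ × ℤ → A) (e f : ℤ × ℤ) (n m : ℕ) (p : ℤ × ℤ) :
    Fin n → Fin m → A :=
  fun i j => x (p + ((i : ℕ) : ℤ) • e + ((j : ℕ) : ℤ) • f)

/-- The block complexity: the number, possibly infinite, of distinct `n × m` blocks of `x` in the
coordinates `e`, `f`, over all positions. -/
noncomputable def complexity {A : Type r} (x : ℤ × ℤ → A) (e f : ℤ × ℤ) (n m : ℕ) : ℕ∞ :=
  (Set.range (block x e f n m)).encard

/-- Nivat's conjecture, for every alphabet (finite or infinite) and every basis `e`, `f` of the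
lattice `ℤ²` (the problem is the case of a finite alphabet and `e = (1, 0)`, `f = (0, 1)`): if some
block complexity of `x` is at most `n m`, then `x` has a nonzero period vector. -/
theorem result :
    ∀ (A : Type r) (x : ℤ × ℤ → A) (e f : ℤ × ℤ), IsUnit (e.1 * f.2 - e.2 * f.1) →
      ∀ n m : ℕ, complexity x e f n m ≤ (n : ℕ∞) * (m : ℕ∞) →
        ∃ v : ℤ × ℤ, v ≠ 0 ∧ ∀ z : ℤ × ℤ, x (z + v) = x z := by
  classical
  intro A x e f hef n m hP
  have hP' : (Set.range (block x e f n m)).encard ≤ ((n * m : ℕ) : ℕ∞) := by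
    rw [Nat.cast_mul]; exact hP
  have hfin : (Set.range (block x e f n m)).Finite := Set.finite_of_encard_le_coe hP'
  have hcard : (Set.range (block x e f n m)).ncard ≤ n * m := by
    have := hfin.cast_ncard_eq
    rw [← this] at hP'
    exact_mod_cast hP'
  have hpos : 0 < n * m := by
    by_contra h
    have h0 : (Set.range (block x e f n m)).ncard = 0 := by omega
    rw [Set.ncard_eq_zero hfin] at h0
    exact (Set.range_nonempty _).ne_empty h0
  have hn : 0 < n := by
    rcases Nat.eq_zero_or_pos n with h0 | h0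
    · subst h0; simp at hpos
    · exact h0
  have hm : 0 < m := by
    rcases Nat.eq_zero_or_pos m with h0 | h0
    · subst h0; simp at hpos
    · exact h0
  -- only finitely many letters occur
  have hx : (Set.range x).Finite := by
    refine (hfin.image (fun B : Fin n → Fin m → A => B ⟨0, hn⟩ ⟨0, hm⟩)).subset ?_
    rintro _ ⟨z, rfl⟩
    exact ⟨block x e f n m z, ⟨z, rfl⟩, by simp [block]⟩
  have : Finite (Set.range x) := hx
  obtain ⟨k, ⟨g⟩⟩ := Finite.exists_equiv_fin (Set.range x)
  let h : A → Fin k := fun a =>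
    if ha : a ∈ Set.range x then g ⟨a, ha⟩ else g ⟨x 0, Set.mem_range_self 0⟩
  have hh : ∀ z w : ℤ × ℤ, h (x z) = h (x w) → x z = x w := by
    intro z w hzw
    simp only [h, Set.mem_range_self, dif_pos] at hzw
    have := g.injective hzw
    exact congrArg Subtype.val this
  -- change of coordinates
  let L : ℤ × ℤ → ℤ × ℤ := fun z => z.1 • e + z.2 • f
  have hLadd : ∀ z w, L (z + w) = L z + L w := by
    intro z w
    simp only [L, Prod.fst_add, Prod.snd_add, add_smul]
    abel
  obtain ⟨δ, hδ⟩ : ∃ δ : ℤ, δ * (e.1 * f.2 - e.2 * f.1) = 1 := by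
    obtain ⟨δ, hδ⟩ := hef.exists_left_inv
    exact ⟨δ, hδ⟩
  let M : ℤ × ℤ → ℤ × ℤ := fun w => (δ * (w.1 * f.2 - w.2 * f.1), δ * (e.1 * w.2 - e.2 * w.1))
  have hLM : ∀ w, L (M w) = w := by
    intro w
    ext
    · simp only [L, M, Prod.fst_add, Prod.smul_fst, smul_eq_mul]
      linear_combination w.1 * hδ
    · simp only [L, M, Prod.snd_add, Prod.smul_snd, smul_eq_mul]
      linear_combination w.2 * hδ
  have hML : ∀ z, M (L z) = z := by
    intro z
    ext
    · simp only [L, M, Prod.fst_add, Prod.snd_add, Prod.smul_fst, Prod.smul_snd, smul_eq_mul]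
      linear_combination z.1 * hδ
    · simp only [L, M, Prod.fst_add, Prod.snd_add, Prod.smul_fst, Prod.smul_snd, smul_eq_mul]
      linear_combination z.2 * hδ
  let y : ℤ × ℤ → Fin k := fun z => h (x (L z))
  have hy : (Set.range (Pool.Agent.H97.NV.blk y n m)).ncard ≤ n * m := by
    have hsub : Set.range (Pool.Agent.H97.NV.blk y n m) ⊆
        (fun (B : Fin n → Fin m → A) (q : Fin n × Fin m) => h (B q.1 q.2)) ''
          Set.range (block x e f n m) := by
      rintro _ ⟨c, rfl⟩
      refine ⟨block x e f n m (L c), ⟨L c, rfl⟩, ?_⟩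
      funext q
      have e1 : L (c.1 + ((q.1 : ℕ) : ℤ), c.2 + ((q.2 : ℕ) : ℤ)) =
          L c + ((q.1 : ℕ) : ℤ) • e + ((q.2 : ℕ) : ℤ) • f := by
        simp only [L, add_smul]
        abel
      simp only [block, Pool.Agent.H97.NV.blk, y, e1]
    exact (Set.ncard_le_ncard hsub (hfin.image _)).trans
      ((Set.ncard_image_le hfin).trans hcard)
  obtain ⟨v, hv0, hv⟩ := Pool.Agent.H97.NV.nivat (Fin k) y n m hy
  refine ⟨L v, ?_, fun z => ?_⟩
  · intro h0
    apply hv0
    rw [← hML v, h0]
    simp [M]
  · have h1 := hv (M z)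
    simp only [y] at h1
    rw [hLadd, hLM] at h1
    exact hh _ _ h1

end Pool.Agent.Results.MP_de3c7d_co.NivatTheorem
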